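import Mathlib
import Pool.Agent.Results.MP_0ebc21_nt.ExponentialGrowth

/-! # Positivity of the coefficients of `(q;q)_∞ / Ψ(-q², q)` -/

set_option autoImplicit false

namespace Pool.Agent.Results.MP_d4d41d_nt.Positivity

open Finset

open Pool.Agent.Results.MP_0ebc21_nt.ExponentialGrowth (psi Psi T e s c psi_eq mul_c le_e two_T le_T psi_zero)

open scoped PowerSeries.WithPiTopology in
/-- the coefficient of `q^n` in `(q;q)_∞ / Ψ(-q², q)` -/
noncomputable def b (n : ℕ) : ℤ :=
  PowerSeries.coeff n ((∏' k : ℕ, (1 - PowerSeries.X ^ (k + 1) : PowerSeries ℤ)) *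
    PowerSeries.invOfUnit (Psi 2) 1)

/-- the coefficients of `1 / Ψ(-q², q)`, extended by zero -/
noncomputable def C (x : ℤ) : ℤ := if 0 ≤ x then c 2 x.toNat else 0

theorem C_neg (x : ℤ) (hx : x < 0) : C x = 0 := if_neg (by omega)

theorem C_nat (n : ℕ) : C n = c 2 n := by
  unfold C
  rw [if_pos (Int.natCast_nonneg n), Int.toNat_natCast]

theorem e_two (m : ℕ) : 2 * e 2 m = 3 * (m * m) + m := by
  unfold e
  have h1 := two_T m
  have h2 := le_T m
  have h3 : m * (m + 1) = m * m + m := by ring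
  omega

/-- the exponents as integers -/
def E (m : ℕ) : ℤ := (e 2 m : ℤ)

theorem two_E (m : ℕ) : 2 * E m = 3 * (m * m) + m := by
  unfold E
  exact_mod_cast e_two m

theorem E_succ (m : ℕ) : E (m + 1) = E m + (3 * m + 2) := by
  have h1 := two_E m
  have h2 := two_E (m + 1)
  push_cast at h2
  nlinarith

theorem E_ge (m : ℕ) : (m : ℤ) ≤ E m := by
  unfold E
  exact_mod_cast le_e 2 m (by norm_num)

/-- differences -/
noncomputable def D (m : ℕ) (y : ℤ) : ℤ := C (y - E m) - C (y - E m - (2 * m + 1))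

theorem ind_sum (n k : ℕ) : ∑ i ∈ range (n + 1), (if k = i then (1 : ℤ) else 0) * c 2 (n - i) =
    C ((n : ℤ) - k) := by
  by_cases h : k ≤ n
  · rw [Finset.sum_eq_single k]
    · rw [if_pos rfl, one_mul]
      have h1 : (n : ℤ) - k = ((n - k : ℕ) : ℤ) := by omega
      rw [h1, C_nat]
    · intro i _ hi
      rw [if_neg (Ne.symm hi), zero_mul]
    · intro h2
      rw [mem_range] at h2
      omega
  · rw [C_neg _ (by omega)]
    apply Finset.sum_eq_zero
    intro i hi
    rw [mem_range] at hi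
    rw [if_neg (by omega), zero_mul]

theorem coeff_mul_inv (F : PowerSeries ℤ) (σ : ℕ → ℤ)
    (hF : ∀ N, PowerSeries.coeff N F = ∑ m ∈ range (N + 1),
      σ m * ((if e 2 m = N then 1 else 0) - (if e 2 m + (2 * m + 1) = N then 1 else 0))) (n : ℕ) :
    PowerSeries.coeff n (F * PowerSeries.invOfUnit (Psi 2) 1) =
      ∑ m ∈ range (n + 1), σ m * D m n := by
  rw [PowerSeries.coeff_mul, Finset.Nat.sum_antidiagonal_eq_sum_range_succ
    (fun i j => PowerSeries.coeff i F * PowerSeries.coeff j (PowerSeries.invOfUnit (Psi 2) 1))]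
  have h1 : ∀ i ∈ range n.succ, PowerSeries.coeff i F *
      PowerSeries.coeff (n - i) (PowerSeries.invOfUnit (Psi 2) 1) =
      ∑ m ∈ range (n + 1), σ m * (((if e 2 m = i then (1 : ℤ) else 0) * c 2 (n - i)) -
        ((if e 2 m + (2 * m + 1) = i then (1 : ℤ) else 0) * c 2 (n - i))) := by
    intro i hi
    rw [mem_range] at hi
    have h2 : PowerSeries.coeff i F = ∑ m ∈ range (n + 1),
        σ m * ((if e 2 m = i then 1 else 0) - (if e 2 m + (2 * m + 1) = i then 1 else 0)) := by
      rw [hF]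
      apply Finset.sum_subset
      · intro m hm
        rw [mem_range] at hm ⊢
        omega
      · intro m _ hm
        rw [mem_range] at hm
        have := le_e 2 m (by norm_num)
        rw [if_neg (by omega), if_neg (by omega)]
        ring
    rw [h2, Finset.sum_mul]
    refine Finset.sum_congr rfl fun m _ => ?_
    show _ * c 2 (n - i) = _
    ring
  rw [Finset.sum_congr rfl h1, Finset.sum_comm]
  refine Finset.sum_congr rfl fun m _ => ?_
  rw [← Finset.mul_sum, Finset.sum_sub_distrib]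
  have h3 := ind_sum n (e 2 m)
  have h4 := ind_sum n (e 2 m + (2 * m + 1))
  have h5 : range n.succ = range (n + 1) := rfl
  rw [h5, h3, h4]
  unfold D E
  congr 2
  push_cast
  ring_nf

/-- the recursion -/
theorem rec_C (n : ℕ) : ∑ m ∈ range (n + 1), s m * D m n = if n = 0 then 1 else 0 := by
  rw [← coeff_mul_inv (Psi 2) s (fun N => ?_) n]
  · rw [← mul_c 2 (by norm_num) n, PowerSeries.coeff_mul]
    refine Finset.sum_congr rfl fun x _ => ?_
    unfold Psi c
    rw [PowerSeries.coeff_mk]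
    rfl
  · unfold Psi
    rw [PowerSeries.coeff_mk, psi_eq 2 N (by norm_num)]

theorem pent_neg (m : ℕ) : pentagonal (-(m : ℤ)) = e 2 m := by
  have h1 := two_mul_natCast_pentagonal_neg (m : ℤ)
  have h2 := e_two m
  have h3 : (2 : ℤ) * (e 2 m : ℤ) = 3 * (m * m) + m := by exact_mod_cast h2
  have h4 : (2 : ℤ) * (pentagonal (-(m : ℤ)) : ℤ) = 2 * (e 2 m : ℤ) := by rw [h1, h3]; ring
  have h5 : (pentagonal (-(m : ℤ)) : ℤ) = (e 2 m : ℤ) := by linarith
  exact_mod_cast h5

theorem pent_pos (m : ℕ) : pentagonal ((m : ℤ) + 1) = e 2 m + (2 * m + 1) := by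
  have h1 := two_mul_natCast_pentagonal ((m : ℤ) + 1)
  have h2 := e_two m
  have h3 : (2 : ℤ) * (e 2 m : ℤ) = 3 * (m * m) + m := by exact_mod_cast h2
  have h4 : (2 : ℤ) * (pentagonal ((m : ℤ) + 1) : ℤ) = 2 * ((e 2 m + (2 * m + 1) : ℕ) : ℤ) := by
    rw [h1]; push_cast; linear_combination -h3
  have h5 : (pentagonal ((m : ℤ) + 1) : ℤ) = ((e 2 m + (2 * m + 1) : ℕ) : ℤ) := by linarith
  exact_mod_cast h5

theorem coeff_pent (N : ℕ) : PowerSeries.coeff N (PowerSeries.pentagonalSeries ℤ) =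
    ∑ m ∈ range (N + 1), (-1) ^ m *
      ((if e 2 m = N then 1 else 0) - (if e 2 m + (2 * m + 1) = N then 1 else 0)) := by
  by_cases h : N ∈ Set.range pentagonal
  · obtain ⟨k, rfl⟩ := h
    rw [PowerSeries.coeff_pentagonalSeries_pentagonal]
    rcases le_or_gt k 0 with hk | hk
    · obtain ⟨m, rfl⟩ : ∃ m : ℕ, k = -(m : ℤ) := ⟨(-k).toNat, by omega⟩
      have hm := pent_neg m
      have hle := le_e 2 m (by norm_num)
      rw [Finset.sum_eq_single m]
      · have h1 : ¬ (e 2 m + (2 * m + 1) = pentagonal (-(m : ℤ))) := by omega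
        rw [if_pos hm.symm, if_neg h1, sub_zero, mul_one, Int.negOnePow_neg]
        simp [Int.negOnePow]
      · intro i _ hi
        have h1 : ¬ (e 2 i = pentagonal (-(m : ℤ))) := by
          intro h
          rw [← pent_neg i, pentagonal_inj] at h
          omega
        have h2 : ¬ (e 2 i + (2 * i + 1) = pentagonal (-(m : ℤ))) := by
          intro h
          rw [← pent_pos i, pentagonal_inj] at h
          omega
        rw [if_neg h1, if_neg h2]; ring
      · intro h1
        rw [mem_range] at h1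
        omega
    · obtain ⟨m, rfl⟩ : ∃ m : ℕ, k = (m : ℤ) + 1 := ⟨(k - 1).toNat, by omega⟩
      have hm := pent_pos m
      have hle := le_e 2 m (by norm_num)
      rw [Finset.sum_eq_single m]
      · have h1 : ¬ (e 2 m = pentagonal ((m : ℤ) + 1)) := by omega
        rw [if_neg h1, if_pos hm.symm, zero_sub, Int.negOnePow_succ]
        simp [Int.negOnePow]
      · intro i _ hi
        have h1 : ¬ (e 2 i = pentagonal ((m : ℤ) + 1)) := by
          intro h
          rw [← pent_neg i, pentagonal_inj] at h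
          omega
        have h2 : ¬ (e 2 i + (2 * i + 1) = pentagonal ((m : ℤ) + 1)) := by
          intro h
          rw [← pent_pos i, pentagonal_inj] at h
          omega
        rw [if_neg h1, if_neg h2]; ring
      · intro h1
        rw [mem_range] at h1
        omega
  · rw [PowerSeries.coeff_pentagonalSeries_eq_zero ℤ h]
    symm
    apply Finset.sum_eq_zero
    intro i _
    have h1 : ¬ (e 2 i = N) := by
      intro h'
      exact h ⟨_, (pent_neg i).trans h'⟩
    have h2 : ¬ (e 2 i + (2 * i + 1) = N) := by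
      intro h'
      exact h ⟨_, (pent_pos i).trans h'⟩
    rw [if_neg h1, if_neg h2]; ring

theorem b_eq (n : ℕ) : b n = ∑ m ∈ range (n + 1), (-1) ^ m * D m n := by
  unfold b
  rw [PowerSeries.WithPiTopology.tprod_one_sub_X_pow]
  exact coeff_mul_inv (PowerSeries.pentagonalSeries ℤ) (fun m => (-1) ^ m) coeff_pent n

theorem D_zero (m n : ℕ) (h : n < m) : D m n = 0 := by
  unfold D
  have h1 := E_ge m
  rw [C_neg _ (by omega), C_neg _ (by omega), sub_zero]

theorem sum_extend (σ : ℕ → ℤ) (n K : ℕ) (hK : n + 1 ≤ K) :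
    ∑ m ∈ range (n + 1), σ m * D m n = ∑ m ∈ range K, σ m * D m n := by
  apply Finset.sum_subset
  · intro m hm
    rw [mem_range] at hm ⊢
    omega
  · intro m _ hm
    rw [mem_range] at hm
    rw [D_zero m n (by omega), mul_zero]

theorem s_abs (m : ℕ) : |s m| = 1 := by
  unfold s
  rw [abs_pow, abs_neg, abs_one, one_pow]

/-- tails of rapidly decreasing sequences -/
theorem tail_le (f : ℕ → ℤ) (k : ℕ) (hf : ∀ m, 0 ≤ f m) (h : ∀ m, k ≤ m → 2 * f (m + 1) ≤ f m) :
    ∀ (L m : ℕ), k ≤ m → ∑ i ∈ Ico (m + 1) (m + 1 + L), f i ≤ f m := by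
  intro L
  induction L with
  | zero => intro m _; simpa using hf m
  | succ L ih =>
    intro m hm
    rw [Finset.sum_eq_sum_Ico_succ_bot (by omega)]
    have h1 := ih (m + 1) (by omega)
    have h2 : m + 1 + (L + 1) = m + 1 + 1 + L := by ring
    rw [h2]
    have h3 := h m hm
    linarith

theorem signed_tail_le (f : ℕ → ℤ) (k : ℕ) (hf : ∀ m, 0 ≤ f m)
    (h : ∀ m, k ≤ m → 2 * f (m + 1) ≤ f m) (L m : ℕ) (hm : k ≤ m) :
    |∑ i ∈ Ico (m + 1) (m + 1 + L), s i * f i| ≤ f m := by
  refine (Finset.abs_sum_le_sum_abs _ _).trans ?_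
  refine le_trans (le_of_eq (Finset.sum_congr rfl fun i _ => ?_)) (tail_le f k hf h L m hm)
  rw [abs_mul, s_abs, one_mul, abs_of_nonneg (hf i)]

/-- the inductive statement -/
def M (n : ℤ) : Prop := ∀ x : ℤ, x ≤ n → 0 ≤ C x ∧ C (x - 1) ≤ C x ∧
  (2 ≤ x → 13 * C (x - 1) ≤ 10 * C x) ∧
  (1 ≤ x → C (x - 1) + C (x - 2) - C (x - 5) ≤ C x) ∧
  (1 ≤ x → C x ≤ C (x - 1) + C (x - 2) - C (x - 5) + C (x - 7) - C (x - 12))

theorem M_mono (n : ℤ) (h : M n) (x y : ℤ) (hxy : x ≤ y) (hy : y ≤ n) : C x ≤ C y := by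
  obtain ⟨k, hk⟩ : ∃ k : ℕ, y = x + k := ⟨(y - x).toNat, by omega⟩
  induction k generalizing y with
  | zero => rw [hk]; simp
  | succ k ih =>
    have h1 := (h y hy).2.1
    have h2 := ih (y - 1) (by push_cast at hk; omega) (by omega) (by push_cast at hk; omega)
    linarith

theorem C_zero : C 0 = 1 := by
  have h := rec_C 0
  rw [Finset.sum_range_one, if_pos rfl] at h
  have hs : s 0 = 1 := by simp [s, T]
  have hE : E 0 = 0 := by have := two_E 0; push_cast at this; omega
  unfold D at h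
  rw [hs, hE, C_neg (((0 : ℕ) : ℤ) - 0 - (2 * ((0 : ℕ) : ℤ) + 1)) (by simp)] at h
  simpa using h

theorem Q_of_M (n : ℤ) (h : M n) (x : ℤ) (hx : x ≤ n) : C (x - 3) + 2 * C (x - 5) ≤ C x := by
  rcases lt_or_ge x 5 with h1 | h1
  · rw [C_neg (x - 5) (by omega)]
    have := M_mono n h (x - 3) x (by omega) hx
    omega
  · rcases eq_or_lt_of_le h1 with h2 | h2
    · subst h2
      have l1 := (h 1 (by omega)).2.2.2.1 (by norm_num)
      have l2 := (h 2 (by omega)).2.2.2.1 (by norm_num)
      have l3 := (h 3 (by omega)).2.2.2.1 (by norm_num)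
      have l4 := (h 4 (by omega)).2.2.2.1 (by norm_num)
      have l5 := (h 5 (by omega)).2.2.2.1 (by norm_num)
      have u1 := (h 1 (by omega)).2.2.2.2 (by norm_num)
      have u2 := (h 2 (by omega)).2.2.2.2 (by norm_num)
      have c0 := C_zero
      have z1 : C (-1) = 0 := C_neg _ (by norm_num)
      have z2 : C (-2) = 0 := C_neg _ (by norm_num)
      have z3 : C (-3) = 0 := C_neg _ (by norm_num)
      have z4 : C (-4) = 0 := C_neg _ (by norm_num)
      have z5 : C (-5) = 0 := C_neg _ (by norm_num)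
      have z6 : C (-6) = 0 := C_neg _ (by norm_num)
      have z7 : C (-10) = 0 := C_neg _ (by norm_num)
      have z8 : C (-11) = 0 := C_neg _ (by norm_num)
      norm_num at l1 l2 l3 l4 l5 u1 u2 ⊢
      omega
    · have b1 := (h x hx).2.2.1 (by omega)
      have b2 := (h (x - 1) (by omega)).2.2.1 (by omega)
      have b3 := (h (x - 2) (by omega)).2.2.1 (by omega)
      have b4 := (h (x - 3) (by omega)).2.2.1 (by omega)
      have b5 := (h (x - 4) (by omega)).2.2.1 (by omega)
      have b6 := (h x hx).1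
      have e1 : x - 1 - 1 = x - 2 := by ring
      have e2 : x - 2 - 1 = x - 3 := by ring
      have e3 : x - 3 - 1 = x - 4 := by ring
      have e4 : x - 4 - 1 = x - 5 := by ring
      rw [e1] at b2
      rw [e2] at b3
      rw [e3] at b4
      rw [e4] at b5
      linarith

theorem D_nonneg (n : ℤ) (h : M n) (m : ℕ) (y : ℤ) (hy : y - E m ≤ n) : 0 ≤ D m y := by
  unfold D
  have := M_mono n h (y - E m - (2 * m + 1)) (y - E m) (by omega) hy
  omega

theorem D_half (n : ℤ) (h : M n) (m : ℕ) (hm : 1 ≤ m) (y : ℤ) (hy : y - E m ≤ n) :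
    2 * D (m + 1) y ≤ D m y := by
  unfold D
  rw [E_succ]
  set x : ℤ := y - E m with hx
  have h1 := Q_of_M n h x hy
  have hm' : (1 : ℤ) ≤ m := by exact_mod_cast hm
  have h2 := M_mono n h (x - (2 * m + 1)) (x - 3) (by omega) (by omega)
  have h3 := M_mono n h (y - (E m + (3 * m + 2))) (x - 5) (by omega) (by omega)
  have h4 := (h (y - (E m + (3 * m + 2)) - (2 * ((m + 1 : ℕ) : ℤ) + 1)) (by push_cast; omega)).1
  omega

theorem E_values : E 0 = 0 ∧ E 1 = 2 ∧ E 2 = 7 ∧ E 3 = 15 := by
  have h0 := two_E 0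
  have h1 := two_E 1
  have h2 := two_E 2
  have h3 := two_E 3
  push_cast at h0 h1 h2 h3
  refine ⟨by omega, by omega, by omega, by omega⟩

theorem s_values : s 0 = 1 ∧ s 1 = -1 ∧ s 2 = -1 ∧ s 3 = 1 := by
  refine ⟨by simp [s, T], by simp [s, T], ?_, ?_⟩
  · simp only [s, T]; norm_num
  · simp only [s, T]; norm_num

theorem M_step (n : ℕ) (h : M n) : M ((n + 1 : ℕ) : ℤ) := by
  set y : ℤ := ((n + 1 : ℕ) : ℤ) with hy
  have hyn : y = n + 1 := by rw [hy]; push_cast; ring
  -- D 1, D 2, ... are controlled by M n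
  have hE : ∀ m : ℕ, 1 ≤ m → y - E m ≤ n := by
    intro m hm
    have h1 : (1 : ℤ) ≤ m := by exact_mod_cast hm
    have := E_ge m
    omega
  have hrec := rec_C (n + 1)
  rw [if_neg (by omega), sum_extend s (n + 1) (n + 1 + 4) (by omega), Finset.range_eq_Ico] at hrec
  obtain ⟨s0, s1, s2, s3⟩ := s_values
  obtain ⟨E0, E1, E2, E3⟩ := E_values
  rw [Finset.sum_eq_sum_Ico_succ_bot (by omega), Finset.sum_eq_sum_Ico_succ_bot (by omega),
    Finset.sum_eq_sum_Ico_succ_bot (by omega)] at hrec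
  simp only [Nat.zero_add, Nat.reduceAdd] at hrec
  rw [s0, s1, s2] at hrec
  -- f: the differences, made nonnegative at 0
  set f : ℕ → ℤ := fun m => if m = 0 then 0 else D m y with hf
  have hf0 : ∀ m, 0 ≤ f m := by
    intro m
    simp only [hf]
    split_ifs with h0
    · exact le_rfl
    · exact D_nonneg n h m y (hE m (by omega))
  have hf1 : ∀ m, 1 ≤ m → 2 * f (m + 1) ≤ f m := by
    intro m hm
    simp only [hf]
    rw [if_neg (by omega), if_neg (by omega)]
    exact D_half n h m hm y (hE m hm)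
  have hcongr : ∀ a b : ℕ, 1 ≤ a → ∑ i ∈ Ico a b, s i * D i y = ∑ i ∈ Ico a b, s i * f i := by
    intro a b ha
    refine Finset.sum_congr rfl fun i hi => ?_
    rw [mem_Ico] at hi
    simp only [hf]
    rw [if_neg (by omega)]
  have ht3 := signed_tail_le f 1 hf0 hf1 (n + 2) 2 (by norm_num)
  have ht4 := signed_tail_le f 1 hf0 hf1 (n + 1) 3 (by norm_num)
  have r3 : 2 + 1 + (n + 2) = n + 1 + 4 := by ring
  have r4 : 3 + 1 + (n + 1) = n + 1 + 4 := by ring
  rw [r3, ← hcongr _ _ (by norm_num)] at ht3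
  rw [r4, ← hcongr _ _ (by norm_num)] at ht4
  have hf2 : f 2 = D 2 y := by simp [hf]
  have hf3 : f 3 = D 3 y := by simp [hf]
  rw [hf2, abs_le] at ht3
  rw [hf3, abs_le] at ht4
  have hsplit : ∑ i ∈ Ico (2 + 1) (n + 1 + 4), s i * D i y =
      D 3 y + ∑ i ∈ Ico (3 + 1) (n + 1 + 4), s i * D i y := by
    rw [Finset.sum_eq_sum_Ico_succ_bot (by omega)]
    simp only [Nat.reduceAdd]
    rw [s3, one_mul]
  have hD0 : D 0 y = C y - C (y - 1) := by unfold D; rw [E0]; push_cast; ring_nf
  have hD1 : D 1 y = C (y - 2) - C (y - 5) := by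
    unfold D; rw [E1]
    have : y - 2 - (2 * ((1 : ℕ) : ℤ) + 1) = y - 5 := by push_cast; ring
    rw [this]
  have hD2 : D 2 y = C (y - 7) - C (y - 12) := by
    unfold D; rw [E2]
    have : y - 7 - (2 * ((2 : ℕ) : ℤ) + 1) = y - 12 := by push_cast; ring
    rw [this]
  have hlow : C (y - 1) + C (y - 2) - C (y - 5) ≤ C y := by
    simp only [Nat.reduceAdd] at ht3
    have := ht3.2
    linarith
  have hup : C y ≤ C (y - 1) + C (y - 2) - C (y - 5) + C (y - 7) - C (y - 12) := by
    simp only [Nat.reduceAdd] at hsplit ht4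
    have := ht4.1
    linarith
  have hmono1 := M_mono n h (y - 5) (y - 2) (by omega) (by omega)
  have hpos1 := (h (y - 1) (by omega)).1
  have hmono : C (y - 1) ≤ C y := by linarith
  intro x hx
  rcases lt_or_eq_of_le hx with hlt | heq
  · exact h x (by omega)
  · rw [heq]
    refine ⟨by linarith, hmono, ?_, fun _ => hlow, fun _ => hup⟩
    intro h2
    rcases lt_or_ge y 6 with h6 | h6
    · -- explicit values
      have c0 := C_zero
      have z1 : C (-1) = 0 := C_neg _ (by norm_num)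
      have z2 : C (-2) = 0 := C_neg _ (by norm_num)
      have z3 : C (-3) = 0 := C_neg _ (by norm_num)
      have z4 : C (-4) = 0 := C_neg _ (by norm_num)
      have z5 : C (-5) = 0 := C_neg _ (by norm_num)
      have z6 : C (-6) = 0 := C_neg _ (by norm_num)
      have z7 : C (-7) = 0 := C_neg _ (by norm_num)
      have z8 : C (-8) = 0 := C_neg _ (by norm_num)
      have z9 : C (-9) = 0 := C_neg _ (by norm_num)
      have z10 : C (-10) = 0 := C_neg _ (by norm_num)
      have z11 : C (-11) = 0 := C_neg _ (by norm_num)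
      have a : ∀ x : ℤ, 1 ≤ x → x ≤ n → C (x - 1) + C (x - 2) - C (x - 5) ≤ C x ∧
          C x ≤ C (x - 1) + C (x - 2) - C (x - 5) + C (x - 7) - C (x - 12) := fun x h1 h2 =>
        ⟨(h x h2).2.2.2.1 h1, (h x h2).2.2.2.2 h1⟩
      have hcases : y = 2 ∨ y = 3 ∨ y = 4 ∨ y = 5 := by omega
      rcases hcases with hc | hc | hc | hc
      · have a1 := a 1 (by omega) (by omega)
        rw [hc] at hlow hup ⊢
        norm_num at a1 hlow hup ⊢
        omega
      · have a1 := a 1 (by omega) (by omega)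
        have a2 := a 2 (by omega) (by omega)
        rw [hc] at hlow hup ⊢
        norm_num at a1 a2 hlow hup ⊢
        omega
      · have a1 := a 1 (by omega) (by omega)
        have a2 := a 2 (by omega) (by omega)
        have a3 := a 3 (by omega) (by omega)
        rw [hc] at hlow hup ⊢
        norm_num at a1 a2 a3 hlow hup ⊢
        omega
      · have a1 := a 1 (by omega) (by omega)
        have a2 := a 2 (by omega) (by omega)
        have a3 := a 3 (by omega) (by omega)
        have a4 := a 4 (by omega) (by omega)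
        rw [hc] at hlow hup ⊢
        norm_num at a1 a2 a3 a4 hlow hup ⊢
        omega
    · have b2 := (h (y - 2) (by omega)).2.2.1 (by omega)
      have b3 := (h (y - 3) (by omega)).2.2.1 (by omega)
      have b4 := (h (y - 4) (by omega)).2.2.1 (by omega)
      have u1 := (h (y - 1) (by omega)).2.2.2.2 (by omega)
      have e1 : y - 2 - 1 = y - 3 := by ring
      have e2 : y - 3 - 1 = y - 4 := by ring
      have e3 : y - 4 - 1 = y - 5 := by ring
      have e4 : y - 1 - 1 = y - 2 := by ring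
      have e5 : y - 1 - 2 = y - 3 := by ring
      have e6 : y - 1 - 5 = y - 6 := by ring
      have e7 : y - 1 - 7 = y - 8 := by ring
      have e8 : y - 1 - 12 = y - 13 := by ring
      rw [e1] at b2
      rw [e2] at b3
      rw [e3] at b4
      rw [e4, e5, e6, e7, e8] at u1
      have m1 := M_mono n h (y - 8) (y - 6) (by omega) (by omega)
      have m2 := (h (y - 13) (by omega)).1
      have m3 := (h (y - 2) (by omega)).1
      linarith

theorem M_all (n : ℕ) : M n := by
  induction n with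
  | zero =>
    intro x hx
    have hx' : x ≤ 0 := by exact_mod_cast hx
    refine ⟨?_, ?_, fun h => by omega, fun h => by omega, fun h => by omega⟩
    · rcases lt_or_eq_of_le hx' with h | h
      · rw [C_neg x h]
      · rw [h, C_zero]; norm_num
    · rw [C_neg (x - 1) (by omega)]
      rcases lt_or_eq_of_le hx' with h | h
      · rw [C_neg x h]
      · rw [h, C_zero]; norm_num
  | succ n ih => exact M_step n ih

theorem sum_four (f : ℕ → ℤ) (J : ℕ) : ∑ m ∈ range (4 * J), f m =
    ∑ j ∈ range J, (f (4 * j) + f (4 * j + 1) + f (4 * j + 2) + f (4 * j + 3)) := by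
  induction J with
  | zero => simp
  | succ J ih =>
    rw [Finset.sum_range_succ, ← ih]
    have : 4 * (J + 1) = 4 * J + 1 + 1 + 1 + 1 := by ring
    rw [this, Finset.sum_range_succ, Finset.sum_range_succ, Finset.sum_range_succ,
      Finset.sum_range_succ]
    ring

theorem s_four (j : ℕ) : s (4 * j) = 1 ∧ s (4 * j + 1) = -1 ∧ s (4 * j + 2) = -1 ∧
    s (4 * j + 3) = 1 := by
  have t0 : T (4 * j) = 2 * (j * (4 * j + 1)) := by
    have := two_T (4 * j)
    have h : 4 * j * (4 * j + 1) = 2 * (2 * (j * (4 * j + 1))) := by ring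
    omega
  have t1 : T (4 * j + 1) = 2 * (4 * (j * j) + 3 * j) + 1 := by
    have := two_T (4 * j + 1)
    have h : (4 * j + 1) * (4 * j + 1 + 1) = 2 * (2 * (4 * (j * j) + 3 * j) + 1) := by ring
    omega
  have t2 : T (4 * j + 2) = 2 * (4 * (j * j) + 5 * j + 1) + 1 := by
    have := two_T (4 * j + 2)
    have h : (4 * j + 2) * (4 * j + 2 + 1) = 2 * (2 * (4 * (j * j) + 5 * j + 1) + 1) := by ring
    omega
  have t3 : T (4 * j + 3) = 2 * ((4 * j + 3) * (j + 1)) := by
    have := two_T (4 * j + 3)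
    have h : (4 * j + 3) * (4 * j + 3 + 1) = 2 * (2 * ((4 * j + 3) * (j + 1))) := by ring
    omega
  unfold s
  rw [t0, t1, t2, t3]
  refine ⟨?_, ?_, ?_, ?_⟩
  · rw [pow_mul]; simp
  · rw [pow_succ, pow_mul]; simp
  · rw [pow_succ, pow_mul]; simp
  · rw [pow_mul]; simp

theorem one_four (j : ℕ) : ((-1 : ℤ)) ^ (4 * j) = 1 ∧ ((-1 : ℤ)) ^ (4 * j + 1) = -1 ∧
    ((-1 : ℤ)) ^ (4 * j + 2) = 1 ∧ ((-1 : ℤ)) ^ (4 * j + 3) = -1 := by
  have h : ((-1 : ℤ)) ^ (4 * j) = 1 := by rw [pow_mul]; norm_num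
  refine ⟨h, ?_, ?_, ?_⟩ <;> rw [pow_add, h] <;> norm_num

/-- All the coefficients `b(n)`, `n ≥ 7`, of `(q;q)_∞ / Ψ(-q², q)` are positive. -/
theorem result : ∀ n : ℕ, 7 ≤ n → 0 < b n := by
  intro n hn
  have hM := M_all n
  have h1 := b_eq n
  have h2 := rec_C n
  rw [if_neg (by omega)] at h2
  rw [sum_extend (fun m => (-1) ^ m) n (4 * (n + 1)) (by omega), sum_four] at h1
  rw [sum_extend s n (4 * (n + 1)) (by omega), sum_four] at h2
  have h3 : b n = 2 * ∑ j ∈ range (n + 1), (D (4 * j + 2) n - D (4 * j + 3) n) := by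
    rw [← sub_zero (b n), h1, ← h2, ← Finset.sum_sub_distrib, Finset.mul_sum]
    refine Finset.sum_congr rfl fun j _ => ?_
    obtain ⟨a0, a1, a2, a3⟩ := s_four j
    obtain ⟨c0, c1, c2, c3⟩ := one_four j
    simp only [a0, a1, a2, a3, c0, c1, c2, c3]
    ring
  have hE : ∀ m : ℕ, (n : ℤ) - E m ≤ n := fun m => by
    have := E_ge m
    omega
  have h4 : ∀ j ∈ range (n + 1), 0 ≤ D (4 * j + 2) n - D (4 * j + 3) n := by
    intro j _
    have h5 := D_half n hM (4 * j + 2) (by omega) n (hE _)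
    have h6 := D_nonneg n hM (4 * j + 3) n (hE _)
    have h7 : 4 * j + 2 + 1 = 4 * j + 3 := by ring
    rw [h7] at h5
    linarith
  have h5 : 0 < D (4 * 0 + 2) n - D (4 * 0 + 3) n := by
    have h6 := D_half n hM 2 (by omega) n (hE _)
    have h7 : 0 < D 2 n := by
      unfold D
      rw [E_values.2.2.1]
      have e1 : (n : ℤ) - 7 - (2 * ((2 : ℕ) : ℤ) + 1) = n - 12 := by push_cast; ring
      rw [e1]
      have q := Q_of_M n hM (n - 7) (by omega)
      have e2 : (n : ℤ) - 7 - 5 = n - 12 := by ring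
      rw [e2] at q
      have m1 := (hM (n - 7 - 3) (by omega)).1
      have m2 := (hM (n - 12) (by omega)).1
      have m3 := M_mono n hM 0 (n - 7) (by omega) (by omega)
      rw [C_zero] at m3
      omega
    have h8 : (4 * 0 + 2) = 2 := by norm_num
    have h9 : (4 * 0 + 3) = 2 + 1 := by norm_num
    rw [h8, h9]
    have h10 := D_nonneg n hM (2 + 1) n (hE _)
    omega
  rw [h3]
  have h6 : 0 < ∑ j ∈ range (n + 1), (D (4 * j + 2) n - D (4 * j + 3) n) :=
    Finset.sum_pos' h4 ⟨0, mem_range.2 (by omega), h5⟩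
  omega

end Pool.Agent.Results.MP_d4d41d_nt.Positivity
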